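import Mathlib
import Pool.Agent.ISym.QOne

/-!
c-conjugacy in the symmetric inverse monoid `I(X)` on an arbitrary set `X`.

`I(X)` is the set `X ≃. X` of the partial injective maps of `X`; maps act on the right, so the
product of `α` and `β` is `α.trans β`; the zero is `⊥` (the empty map), the identity is
`PEquiv.refl X`.
-/

universe u

open Cardinal

namespace Pool.Agent.Results.MP_3f621b_al.CConjugacy

open Pool.Agent.ISym

variable {X : Type u}

/-- The set `P(α)`: `P(0) = {0}`, and for `α ≠ 0` the set of all `g` with `(m α) g ≠ 0` for every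
`m` with `m α ≠ 0`. -/
def PSet (α : X ≃. X) : Set (X ≃. X) :=
  {g | (α = ⊥ ∧ g = ⊥) ∨
    (α ≠ ⊥ ∧ ∀ m : X ≃. X, m.trans α ≠ ⊥ → (m.trans α).trans g ≠ ⊥)}

/-- The relation of c-conjugacy: `α g = g β` and `β h = h α` for some `g ∈ P(α) ∪ {1}` and
`h ∈ P(β) ∪ {1}`. -/
def CConj (α β : X ≃. X) : Prop :=
  ∃ g ∈ PSet α ∪ {PEquiv.refl X}, ∃ h ∈ PSet β ∪ {PEquiv.refl X},
    α.trans g = g.trans β ∧ β.trans h = h.trans α

theorem ne_bot_iff {α : X ≃. X} : α ≠ ⊥ ↔ ∃ x y, y ∈ α x := by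
  constructor
  · intro h
    by_contra hcon
    push Not at hcon
    apply h
    apply PEquiv.ext
    intro x
    rw [PEquiv.bot_apply]
    rw [Option.eq_none_iff_forall_not_mem]
    exact hcon x
  · rintro ⟨x, y, h⟩ hbot
    rw [hbot, PEquiv.bot_apply] at h
    exact absurd h (by simp)

theorem mem_PSet_iff {α g : X ≃. X} (hα : α ≠ ⊥) : g ∈ PSet α ↔ im α ⊆ dom g := by
  classical
  constructor
  · rintro (⟨h, _⟩ | ⟨_, h⟩)
    · exact absurd h hα
    · rintro y ⟨x, hxy⟩
      have h1 : (PEquiv.single x x).trans α ≠ ⊥ := by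
        rw [ne_bot_iff]
        refine ⟨x, y, ?_⟩
        rw [PEquiv.mem_trans]
        exact ⟨x, PEquiv.mem_single x x, hxy⟩
      have h2 := h _ h1
      rw [ne_bot_iff] at h2
      obtain ⟨a, b, hab⟩ := h2
      rw [PEquiv.mem_trans] at hab
      obtain ⟨c, hac, hcb⟩ := hab
      rw [PEquiv.mem_trans] at hac
      obtain ⟨d, had, hdc⟩ := hac
      rw [PEquiv.mem_single_iff] at had
      rw [had.2] at hdc
      have : c = y := edge_fun α hdc hxy
      rw [this] at hcb
      exact ⟨b, hcb⟩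
  · intro h
    refine Or.inr ⟨hα, ?_⟩
    intro m hm
    rw [ne_bot_iff] at hm ⊢
    obtain ⟨a, b, hab⟩ := hm
    have hab' := hab
    rw [PEquiv.mem_trans] at hab'
    obtain ⟨c, _, hcb⟩ := hab'
    obtain ⟨d, hd⟩ := h ⟨c, hcb⟩
    refine ⟨a, d, ?_⟩
    rw [PEquiv.mem_trans]
    exact ⟨b, hab, hd⟩

theorem mem_PSet_one_iff {α g : X ≃. X} (hα : α ≠ ⊥) :
    g ∈ PSet α ∪ {PEquiv.refl X} ↔ im α ⊆ dom g := by
  constructor
  · rintro (h | h)
    · exact (mem_PSet_iff hα).mp h
    · intro y _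
      have : g = PEquiv.refl X := h
      rw [this]
      exact ⟨y, by simp [PEquiv.refl_apply]⟩
  · intro h
    exact Or.inl ((mem_PSet_iff hα).mpr h)

theorem cConj_iff_of_ne {α β : X ≃. X} (hα : α ≠ ⊥) (hβ : β ≠ ⊥) :
    CConj α β ↔ CondLe α β ∧ CondLe β α := by
  rw [← exists_hom_iff, ← exists_hom_iff]
  constructor
  · rintro ⟨g, hg, h, hh, h1, h2⟩
    rw [mem_PSet_one_iff hα] at hg
    rw [mem_PSet_one_iff hβ] at hh
    exact ⟨⟨g, hg, h1⟩, ⟨h, hh, h2⟩⟩
  · rintro ⟨⟨g, hg, h1⟩, ⟨h, hh, h2⟩⟩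
    exact ⟨g, (mem_PSet_one_iff hα).mpr hg, h, (mem_PSet_one_iff hβ).mpr hh, h1, h2⟩

theorem cConj_bot_left {β : X ≃. X} (h : CConj ⊥ β) : β = ⊥ := by
  by_contra hβ
  obtain ⟨g, _, h, hh, _, h2⟩ := h
  rw [mem_PSet_one_iff hβ] at hh
  rw [PEquiv.trans_bot] at h2
  obtain ⟨x, y, hxy⟩ := ne_bot_iff.mp hβ
  obtain ⟨z, hz⟩ := hh ⟨x, hxy⟩
  have h3 : z ∈ (β.trans h) x := (PEquiv.mem_trans _ _ _ _).mpr ⟨y, hxy, hz⟩
  rw [h2, PEquiv.bot_apply] at h3
  exact absurd h3 (by simp)

theorem cConj_symm {α β : X ≃. X} (h : CConj α β) : CConj β α := by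
  obtain ⟨g, hg, h, hh, h1, h2⟩ := h
  exact ⟨h, hh, g, hg, h2, h1⟩

theorem cConj_refl (α : X ≃. X) : CConj α α :=
  ⟨PEquiv.refl X, Or.inr rfl, PEquiv.refl X, Or.inr rfl, by simp, by simp⟩

/-- all invariants of the zero vanish on components with a step -/
theorem eq_bot_of_cond {β : X ≃. X} (h : CondLe β ⊥) : β = ⊥ := by
  obtain ⟨g, hg⟩ := exists_hom_iff.mpr h
  by_contra hβ
  obtain ⟨x, y, hxy⟩ := ne_bot_iff.mp hβ
  obtain ⟨y', hy'⟩ := hg.1 ⟨x, hxy⟩
  obtain ⟨x', hx'⟩ := hg.dom_subset ⟨y, hxy⟩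
  obtain ⟨z, _, hz⟩ := hg.edge hxy hx'
  rw [PEquiv.bot_apply] at hz
  exact absurd hz (by simp)

/-- **Description of c-conjugacy in `I(X)` for every set `X`.**  Two elements are c-conjugate iff
they have the same number of `k`-cycles for every `k ≥ 1`, the same number of double rays, the same
number of components that are double or right rays, the same number of left rays, and for every
`l ≥ 1` the same number of components that have a terminal point and more than `l` points (left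
rays and finite chains with at least `l` edges); all numbers are cardinals. -/
theorem result (X : Type u) (α β : X ≃. X) :
    CConj α β ↔
      (∀ k : ℕ, 1 ≤ k → numCycles α k = numCycles β k) ∧
      numDoubleRays α = numDoubleRays β ∧
      numEndlessRays α = numEndlessRays β ∧
      numLeftRays α = numLeftRays β ∧
      ∀ l : ℕ, 1 ≤ l → numEnding α l = numEnding β l := by
  have hcond : (CondLe α β ∧ CondLe β α) ↔
      ((∀ k : ℕ, 1 ≤ k → numCycles α k = numCycles β k) ∧
      numDoubleRays α = numDoubleRays β ∧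
      numEndlessRays α = numEndlessRays β ∧
      numLeftRays α = numLeftRays β ∧
      ∀ l : ℕ, 1 ≤ l → numEnding α l = numEnding β l) := by
    constructor
    · rintro ⟨⟨a1, a2, a3, a4, a5⟩, ⟨b1, b2, b3, b4, b5⟩⟩
      exact ⟨fun k hk => le_antisymm (a1 k hk) (b1 k hk), le_antisymm a2 b2, le_antisymm a3 b3,
        le_antisymm a4 b4, fun l hl => le_antisymm (a5 l hl) (b5 l hl)⟩
    · rintro ⟨a1, a2, a3, a4, a5⟩
      exact ⟨⟨fun k hk => (a1 k hk).le, a2.le, a3.le, a4.le, fun l hl => (a5 l hl).le⟩,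
        ⟨fun k hk => (a1 k hk).ge, a2.ge, a3.ge, a4.ge, fun l hl => (a5 l hl).ge⟩⟩
  rw [← hcond]
  by_cases hα : α = ⊥
  · subst hα
    constructor
    · intro h
      have := cConj_bot_left h
      subst this
      exact ⟨exists_hom_iff.mp ⟨PEquiv.refl X, by
          rintro y ⟨x, hx⟩
          rw [PEquiv.bot_apply] at hx
          exact absurd hx (by simp), by simp⟩,
        exists_hom_iff.mp ⟨PEquiv.refl X, by
          rintro y ⟨x, hx⟩
          rw [PEquiv.bot_apply] at hx
          exact absurd hx (by simp), by simp⟩⟩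
    · rintro ⟨_, h⟩
      have := eq_bot_of_cond h
      subst this
      exact cConj_refl ⊥
  · by_cases hβ : β = ⊥
    · subst hβ
      constructor
      · intro h
        exact absurd (cConj_bot_left (cConj_symm h)) hα
      · rintro ⟨h, _⟩
        exact absurd (eq_bot_of_cond h) hα
    · exact cConj_iff_of_ne hα hβ

end Pool.Agent.Results.MP_3f621b_al.CConjugacy
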