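import Mathlib
import Pool.Agent.ISym.QTwo

/-!
p-conjugacy in the symmetric inverse monoid `I(X)` on an arbitrary set `X`.

`I(X)` is the set `X ≃. X` of the partial injective maps of `X`; maps act on the right, so the
product of `α` and `β` is `α.trans β`.
-/

universe u

open Cardinal

namespace Pool.Agent.Results.MP_3f621b_al.PConjugacy

open Pool.Agent.ISym

/-- The relation of p-conjugacy: `α = u v` and `β = v u` for some `u`, `v` (`I(X)` is a monoid). -/
def PConj {X : Type u} (α β : X ≃. X) : Prop :=
  ∃ u v : X ≃. X, α = u.trans v ∧ β = v.trans u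

/-- **Description of p-conjugacy in `I(X)` for every set `X`.**  Two elements are p-conjugate iff
they have the same number of `k`-cycles for every `k ≥ 1`, the same numbers of double rays, of
right rays and of left rays, and for all `1 ≤ i < j` the number of the finite chains of either one
with at least `i + 1` and at most `j` points is at most the number of the finite chains of the
other with at least `i` and at most `j + 1` points; all numbers are cardinals. -/
theorem result (X : Type u) (α β : X ≃. X) :
    PConj α β ↔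
      (∀ k : ℕ, 1 ≤ k → numCycles α k = numCycles β k) ∧
      numDoubleRays α = numDoubleRays β ∧
      numRightRays α = numRightRays β ∧
      numLeftRays α = numLeftRays β ∧
      ∀ i j : ℕ, 1 ≤ i → i < j → numChains α (i + 1) j ≤ numChains β i (j + 1) ∧
        numChains β (i + 1) j ≤ numChains α i (j + 1) := by
  have h1 : PConj α β ↔ ∃ u v, Fact α β u v :=
    ⟨fun ⟨u, v, h1, h2⟩ => ⟨u, v, h1, h2⟩, fun ⟨u, v, h⟩ => ⟨u, v, h.left, h.right⟩⟩
  rw [h1, exists_fact_iff]
  constructor
  · rintro ⟨⟨a1, a2, a3, a4, a5⟩, ⟨b1, b2, b3, b4, b5⟩⟩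
    exact ⟨fun k hk => le_antisymm (a1 k hk) (b1 k hk), le_antisymm a2 b2, le_antisymm a3 b3,
      le_antisymm a4 b4, fun i j hi hij => ⟨a5 i j hi hij, b5 i j hi hij⟩⟩
  · rintro ⟨a1, a2, a3, a4, a5⟩
    exact ⟨⟨fun k hk => (a1 k hk).le, a2.le, a3.le, a4.le, fun i j hi hij => (a5 i j hi hij).1⟩,
      ⟨fun k hk => (a1 k hk).ge, a2.ge, a3.ge, a4.ge, fun i j hi hij => (a5 i j hi hij).2⟩⟩

end Pool.Agent.Results.MP_3f621b_al.PConjugacy
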